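import Pool.Agent.H174.GP.StE
import Pool.Agent.H174.GP.StA
import Pool.Agent.H174.GP.StP

/-!
# Project GP (helper174), task flip (helper225): flipping does not change the law
-/

open MeasureTheory ProbabilityTheory Finset Filter Topology

namespace Pool.Agent.H225.GP174

open Pool.Agent.H174.GP
open Classical

/-- sign change of the coordinates in `J` -/
noncomputable def fl (J : Finset ℕ) (ω : ℕ → ℝ) (j : ℕ) : ℝ := if j ∈ J then -ω j else ω j

theorem fl_invol (J : Finset ℕ) : Function.Involutive (fl J) := by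
  intro ω
  funext j
  unfold fl
  split_ifs
  · rw [neg_neg]
  · rfl

theorem fl_meas (J : Finset ℕ) : Measurable (fl J) := by
  apply measurable_pi_lambda
  intro j
  unfold fl
  by_cases hj : j ∈ J
  · simp only [hj, if_true]
    exact (measurable_pi_apply j).neg
  · simp only [hj, if_false]
    exact measurable_pi_apply j

theorem fl_map (h2 : S_L3) (J : Finset ℕ) : Measure.map (fl J) PP = PP := by
  unfold PP
  have h := Measure.infinitePi_map_pi (fun _ : ℕ => lap)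
    (f := fun (j : ℕ) (x : ℝ) => if j ∈ J then -x else x) (fun j => by
      by_cases hj : j ∈ J
      · simp only [hj, if_true]
        exact measurable_neg
      · simp only [hj, if_false]
        exact measurable_id)
  have e : fl J = fun (x : ℕ → ℝ) i => (fun (j : ℕ) (x : ℝ) => if j ∈ J then -x else x) i (x i) := rfl
  rw [e, h]
  congr 1
  funext j
  by_cases hj : j ∈ J
  · simp only [hj, if_true]
    exact h2.1
  · simp only [hj, if_false]
    exact Measure.map_id'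

/-- the set of coordinates of the first sequence which are changed -/
noncomputable def KK (D : ℕ) (J : Finset ℕ) : Finset ℕ := J ∪ J.image (fun i => i + D)

/-- the sign change of both sequences -/
noncomputable def TT (D : ℕ) (J : Finset ℕ) : (ℕ → ℝ) × (ℕ → ℝ) → (ℕ → ℝ) × (ℕ → ℝ) :=
  Prod.map (fl (KK D J)) (fl J)

theorem TT_invol (D : ℕ) (J : Finset ℕ) : Function.Involutive (TT D J) := by
  rintro ⟨ω, ω'⟩
  simp only [TT, Prod.map_apply]
  rw [fl_invol, fl_invol]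

theorem TT_meas (D : ℕ) (J : Finset ℕ) : Measurable (TT D J) :=
  (fl_meas _).prodMap (fl_meas _)

theorem TT_mp (h2 : S_L3) (D : ℕ) (J : Finset ℕ) :
    MeasurePreserving (TT D J) (PP.prod PP) (PP.prod PP) :=
  MeasurePreserving.prod ⟨fl_meas _, fl_map h2 _⟩ ⟨fl_meas _, fl_map h2 _⟩

theorem TT_measure (h2 : S_L3) (D : ℕ) (J : Finset ℕ) (E : Set ((ℕ → ℝ) × (ℕ → ℝ))) :
    (PP.prod PP) (TT D J ⁻¹' E) = (PP.prod PP) E := by
  have h : MeasurePreserving (MeasurableEquiv.ofInvolutive (TT D J) (TT_invol D J) (TT_meas D J))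
      (PP.prod PP) (PP.prod PP) := TT_mp h2 D J
  exact h.measure_preimage_equiv E

/-- the indices of the pairs which are changed -/
noncomputable def ff (D : ℕ) (σ : ℝ) (p : (ℕ → ℝ) × (ℕ → ℝ)) : Finset ℕ :=
  (Finset.Ioc D (2 * D)).filter (fun i => prD D σ p.1 i ∧ sg (p.2 i) * geo σ p.1 (i + D) = -1)

theorem geo_neg (h1 : S_Tq) {σ : ℝ} (hσ : 0 < σ) {ω ω' : ℕ → ℝ} {j : ℕ} (hj : 1 ≤ j)
    (h : ω' j = - ω j) : geo σ ω' j = - geo σ ω j := by
  unfold geo
  rw [h]
  exact (h1 (σ * j) (mul_pos hσ (by exact_mod_cast hj))).2.1 (ω j)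

theorem geo_same {σ : ℝ} {ω ω' : ℕ → ℝ} {j : ℕ} (h : ω' j = ω j) : geo σ ω' j = geo σ ω j := by
  unfold geo
  rw [h]

theorem sg_cases (x : ℝ) : sg x = 1 ∨ sg x = -1 := by
  unfold sg
  split_ifs
  · exact Or.inl rfl
  · exact Or.inr rfl

theorem sg_neg {x : ℝ} (hx : x ≠ 0) : sg (-x) = - sg x := by
  unfold sg
  rcases lt_or_gt_of_ne hx with h | h
  · rw [if_pos (by linarith), if_neg (by linarith)]
    norm_num
  · rw [if_neg (by linarith), if_pos h.le]

theorem ff_sub {D : ℕ} {σ : ℝ} {p : (ℕ → ℝ) × (ℕ → ℝ)} {i : ℕ} (h : i ∈ ff D σ p) :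
    i ∈ IP D σ p.1 := by
  rw [ff, Finset.mem_filter] at h
  rw [IP, Finset.mem_filter]
  exact ⟨h.1, h.2.1⟩

theorem fl_in {J : Finset ℕ} {ω : ℕ → ℝ} {j : ℕ} (h : j ∈ J) : fl J ω j = - ω j := if_pos h

theorem fl_out {J : Finset ℕ} {ω : ℕ → ℝ} {j : ℕ} (h : j ∉ J) : fl J ω j = ω j := if_neg h

theorem mem_KK1 {D : ℕ} {J : Finset ℕ} {i : ℕ} (h : i ∈ J) : i ∈ KK D J :=
  Finset.mem_union_left _ h

theorem mem_KK2 {D : ℕ} {J : Finset ℕ} {i : ℕ} (h : i ∈ J) : i + D ∈ KK D J :=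
  Finset.mem_union_right _ (Finset.mem_image_of_mem _ h)

theorem not_KK1 {D : ℕ} {J : Finset ℕ} (hJ : J ⊆ Finset.Ioc D (2 * D)) {i : ℕ}
    (hi : i ∈ Finset.Ioc D (2 * D)) (h : i ∉ J) : i ∉ KK D J := by
  intro h2
  rcases Finset.mem_union.1 h2 with h3 | h3
  · exact h h3
  · obtain ⟨l, hl, rfl⟩ := Finset.mem_image.1 h3
    have h4 := Finset.mem_Ioc.1 (hJ hl)
    have h5 := Finset.mem_Ioc.1 hi
    omega

theorem not_KK2 {D : ℕ} {J : Finset ℕ} (hJ : J ⊆ Finset.Ioc D (2 * D)) {i : ℕ}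
    (hi : i ∈ Finset.Ioc D (2 * D)) (h : i ∉ J) : i + D ∉ KK D J := by
  intro h2
  rcases Finset.mem_union.1 h2 with h3 | h3
  · have h4 := Finset.mem_Ioc.1 (hJ h3)
    have h5 := Finset.mem_Ioc.1 hi
    omega
  · obtain ⟨l, hl, h6⟩ := Finset.mem_image.1 h3
    have h7 : l = i := by
      simpa using h6
    exact h (h7 ▸ hl)

/-- the flipped sequence -/
theorem XT_eq (h1 : S_Tq) {D : ℕ} {σ : ℝ} (hσ : 0 < σ) (p : (ℕ → ℝ) × (ℕ → ℝ)) (j : ℕ) :
    XT D σ p j = geo σ (TT D (ff D σ p) p).1 j := by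
  have hJ : ff D σ p ⊆ Finset.Ioc D (2 * D) := Finset.filter_subset _ _
  show _ = geo σ (fl (KK D (ff D σ p)) p.1) j
  have key : ∀ i ∈ IP D σ p.1, - sg (p.2 i) = geo σ (fl (KK D (ff D σ p)) p.1) i ∧
      sg (p.2 i) = geo σ (fl (KK D (ff D σ p)) p.1) (i + D) := by
    intro i hi
    have hi' := (Finset.mem_filter.1 hi)
    have hi1 := Finset.mem_Ioc.1 hi'.1
    by_cases hiJ : i ∈ ff D σ p
    · have h3 := (Finset.mem_filter.1 hiJ).2.2
      rw [geo_neg h1 hσ (ω := p.1) (by omega) (fl_in (mem_KK1 hiJ)),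
        geo_neg h1 hσ (ω := p.1) (by omega) (fl_in (mem_KK2 hiJ))]
      rcases hi'.2 with ⟨h4, h5⟩ | ⟨h4, h5⟩
      · rw [h5] at h3 ⊢
        rw [h4]
        omega
      · rw [h5] at h3 ⊢
        rw [h4]
        omega
    · rw [geo_same (fl_out (not_KK1 hJ hi'.1 hiJ)), geo_same (fl_out (not_KK2 hJ hi'.1 hiJ))]
      have h3 : sg (p.2 i) * geo σ p.1 (i + D) ≠ -1 := by
        intro h4
        exact hiJ (Finset.mem_filter.2 ⟨hi'.1, hi'.2, h4⟩)
      rcases hi'.2 with ⟨h4, h5⟩ | ⟨h4, h5⟩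
      · rw [h5] at h3 ⊢
        rw [h4]
        rcases sg_cases (p.2 i) with h6 | h6
        · rw [h6] at h3
          norm_num at h3
        · rw [h6]
          norm_num
      · rw [h5] at h3 ⊢
        rw [h4]
        rcases sg_cases (p.2 i) with h6 | h6
        · rw [h6]
          norm_num
        · rw [h6] at h3
          norm_num at h3
  unfold XT
  split_ifs with h2 h3
  · exact (key j h2).1
  · have h4 := (key (j - D) h3.2).2
    rw [Nat.sub_add_cancel h3.1] at h4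
    exact h4
  · symm
    apply geo_same
    apply fl_out
    intro h4
    rcases Finset.mem_union.1 h4 with h5 | h5
    · exact h2 (ff_sub h5)
    · obtain ⟨l, hl, rfl⟩ := Finset.mem_image.1 h5
      apply h3
      refine ⟨Nat.le_add_left _ _, ?_⟩
      rw [Nat.add_sub_cancel]
      exact ff_sub hl

/-- the set of changed pairs is invariant -/
theorem ff_TT (h1 : S_Tq) {D : ℕ} {σ : ℝ} (hσ : 0 < σ) {p : (ℕ → ℝ) × (ℕ → ℝ)}
    (hp : ∀ i ∈ Finset.Ioc D (2 * D), p.2 i ≠ 0) {J : Finset ℕ} (h : ff D σ p = J) :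
    ff D σ (TT D J p) = J := by
  have hJ : J ⊆ Finset.Ioc D (2 * D) := by
    rw [← h]
    exact Finset.filter_subset _ _
  have e1 : (TT D J p).1 = fl (KK D J) p.1 := rfl
  have e2 : (TT D J p).2 = fl J p.2 := rfl
  ext i
  by_cases hi : i ∈ Finset.Ioc D (2 * D)
  · have hi1 := Finset.mem_Ioc.1 hi
    by_cases hiJ : i ∈ J
    · refine ⟨fun _ => hiJ, fun _ => ?_⟩
      have h3 := hiJ
      rw [← h] at h3
      have h4 := (Finset.mem_filter.1 h3).2
      rw [ff, Finset.mem_filter]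
      refine ⟨hi, ?_, ?_⟩
      · rw [e1, prD, geo_neg h1 hσ (ω := p.1) (by omega) (fl_in (mem_KK1 hiJ)),
          geo_neg h1 hσ (ω := p.1) (by omega) (fl_in (mem_KK2 hiJ))]
        rcases h4.1 with ⟨h5, h6⟩ | ⟨h5, h6⟩
        · right
          rw [h5, h6]
          norm_num
        · left
          rw [h5, h6]
          norm_num
      · rw [e1, e2, geo_neg h1 hσ (ω := p.1) (by omega) (fl_in (mem_KK2 hiJ)), fl_in hiJ,
          sg_neg (hp i hi), neg_mul_neg]
        exact h4.2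
    · refine ⟨fun h3 => ?_, fun h3 => absurd h3 hiJ⟩
      exfalso
      apply hiJ
      rw [← h]
      have h4 := (Finset.mem_filter.1 h3).2
      rw [e1, prD, e2, geo_same (fl_out (not_KK1 hJ hi hiJ)),
        geo_same (fl_out (not_KK2 hJ hi hiJ)), fl_out hiJ] at h4
      exact Finset.mem_filter.2 ⟨hi, h4⟩
  · refine ⟨fun h3 => absurd (Finset.mem_filter.1 h3).1 hi, fun h3 => absurd (hJ h3) hi⟩

theorem PP_zero (h2 : S_L3) (i : ℕ) : PP {ω : ℕ → ℝ | ω i = 0} = 0 := by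
  have h := Measure.infinitePi_map_eval (fun _ : ℕ => lap) i
  have h3 : (Measure.map (fun x : ℕ → ℝ => x i) PP) {(0 : ℝ)} = 0 := by
    unfold PP
    rw [h]
    exact h2.2.2 0
  rw [Measure.map_apply (measurable_pi_apply i) (measurableSet_singleton _)] at h3
  exact h3

theorem ae_ne (h2 : S_L3) (D : ℕ) :
    ∀ᵐ p ∂(PP.prod PP), ∀ i ∈ Finset.Ioc D (2 * D), p.2 i ≠ 0 := by
  rw [Filter.eventually_all_finset]
  intro i _
  rw [ae_iff]
  have e : {p : (ℕ → ℝ) × (ℕ → ℝ) | ¬ p.2 i ≠ 0} = Set.univ ×ˢ {ω : ℕ → ℝ | ω i = 0} := by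
    ext p
    simp
  rw [e, Measure.prod_prod, PP_zero h2, mul_zero]

theorem geo_meas (h1 : S_Tq) {σ : ℝ} (hσ : 0 < σ) {j : ℕ} (hj : 1 ≤ j) :
    Measurable (fun p : (ℕ → ℝ) × (ℕ → ℝ) => geo σ p.1 j) :=
  (h1 (σ * j) (mul_pos hσ (by exact_mod_cast hj))).2.2.2.1.comp
    ((measurable_pi_apply j).comp measurable_fst)

theorem sg_meas (j : ℕ) : Measurable (fun p : (ℕ → ℝ) × (ℕ → ℝ) => sg (p.2 j)) := by
  have h : Measurable sg := Measurable.ite measurableSet_Ici measurable_const measurable_const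
  exact h.comp ((measurable_pi_apply j).comp measurable_snd)

theorem ff_meas (h1 : S_Tq) {σ : ℝ} (hσ : 0 < σ) (D : ℕ) {J : Finset ℕ}
    (hJ : J ⊆ Finset.Ioc D (2 * D)) : MeasurableSet (ff D σ ⁻¹' {J}) := by
  have e : ff D σ ⁻¹' {J} = ⋂ i ∈ Finset.Ioc D (2 * D),
      {p | (prD D σ p.1 i ∧ sg (p.2 i) * geo σ p.1 (i + D) = -1) ↔ i ∈ J} := by
    ext p
    simp only [Set.mem_preimage, Set.mem_singleton_iff, Set.mem_iInter, Set.mem_ofPred_eq]
    constructor
    · intro h i hi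
      rw [← h, ff, Finset.mem_filter]
      exact ⟨fun h => ⟨hi, h⟩, fun h => h.2⟩
    · intro h
      ext i
      by_cases hi : i ∈ Finset.Ioc D (2 * D)
      · rw [ff, Finset.mem_filter, ← h i hi]
        exact ⟨fun h => h.2, fun h => ⟨hi, h⟩⟩
      · exact ⟨fun h3 => absurd (Finset.mem_filter.1 h3).1 hi, fun h3 => absurd (hJ h3) hi⟩
  rw [e]
  apply Finset.measurableSet_biInter
  intro i hi
  have hi1 := Finset.mem_Ioc.1 hi
  have m1 : MeasurableSet {p : (ℕ → ℝ) × (ℕ → ℝ) |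
      prD D σ p.1 i ∧ sg (p.2 i) * geo σ p.1 (i + D) = -1} := by
    apply MeasurableSet.inter
    · apply MeasurableSet.union
      · exact (geo_meas h1 hσ (by omega) (measurableSet_singleton 1)).inter
          (geo_meas h1 hσ (by omega) (measurableSet_singleton (-1)))
      · exact (geo_meas h1 hσ (by omega) (measurableSet_singleton (-1))).inter
          (geo_meas h1 hσ (by omega) (measurableSet_singleton 1))
    · exact ((sg_meas i).mul (geo_meas h1 hσ (by omega))) (measurableSet_singleton (-1))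
  by_cases hiJ : i ∈ J
  · have e2 : {p : (ℕ → ℝ) × (ℕ → ℝ) |
        (prD D σ p.1 i ∧ sg (p.2 i) * geo σ p.1 (i + D) = -1) ↔ i ∈ J} = {p |
      prD D σ p.1 i ∧ sg (p.2 i) * geo σ p.1 (i + D) = -1} := by
      ext p
      exact ⟨fun h => h.2 hiJ, fun h => ⟨fun _ => hiJ, fun _ => h⟩⟩
    rw [e2]
    exact m1
  · have e2 : {p : (ℕ → ℝ) × (ℕ → ℝ) |
        (prD D σ p.1 i ∧ sg (p.2 i) * geo σ p.1 (i + D) = -1) ↔ i ∈ J} = {p |
      prD D σ p.1 i ∧ sg (p.2 i) * geo σ p.1 (i + D) = -1}ᶜ := by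
      ext p
      exact ⟨fun h h3 => hiJ (h.1 h3), fun h => ⟨fun h3 => absurd h3 h, fun h3 => absurd h3 hiJ⟩⟩
    rw [e2]
    exact m1.compl

theorem split (h1 : S_Tq) {σ : ℝ} (hσ : 0 < σ) (D : ℕ) (A : Set ((ℕ → ℝ) × (ℕ → ℝ))) :
    (PP.prod PP) A = ∑ J ∈ (Finset.Ioc D (2 * D)).powerset, (PP.prod PP) (ff D σ ⁻¹' {J} ∩ A) := by
  have h := sum_measure_preimage_singleton (μ := (PP.prod PP).restrict A)
    (Finset.Ioc D (2 * D)).powerset (f := ff D σ)
    (fun J hJ => ff_meas h1 hσ D (Finset.mem_powerset.1 hJ))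
  have e : ff D σ ⁻¹' (↑((Finset.Ioc D (2 * D)).powerset) : Set (Finset ℕ)) = Set.univ := by
    ext p
    simp only [Set.mem_preimage, Finset.mem_coe, Finset.mem_powerset, Set.mem_univ, iff_true]
    exact Finset.filter_subset _ _
  rw [e, Measure.restrict_apply_univ] at h
  rw [← h]
  apply Finset.sum_congr rfl
  intro J hJ
  rw [Measure.restrict_apply (ff_meas h1 hσ D (Finset.mem_powerset.1 hJ))]

/-- **Flipping does not change the law.** -/
theorem gp_flip (h1 : S_Tq) (h2 : S_L3) : Pool.Agent.H174.GP.S_flip := by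
  intro D N σ F hσ _
  have hA2 : (PP.prod PP) {p | (fun j => geo σ p.1 j) ∈ F} = PP {ω | (fun j => geo σ ω j) ∈ F} := by
    have e : {p : (ℕ → ℝ) × (ℕ → ℝ) | (fun j => geo σ p.1 j) ∈ F} =
        {ω | (fun j => geo σ ω j) ∈ F} ×ˢ Set.univ := by
      ext p
      simp
    rw [e, Measure.prod_prod, measure_univ, mul_one]
  have hA : (PP.prod PP) {p | (fun j => XT D σ p j) ∈ F} =
      (PP.prod PP) {p | (fun j => geo σ p.1 j) ∈ F} := by
    rw [split h1 hσ D {p | (fun j => XT D σ p j) ∈ F},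
      split h1 hσ D {p | (fun j => geo σ p.1 j) ∈ F}]
    apply Finset.sum_congr rfl
    intro J _
    rw [← TT_measure h2 D J (ff D σ ⁻¹' {J} ∩ {p | (fun j => geo σ p.1 j) ∈ F})]
    apply measure_congr
    filter_upwards [ae_ne h2 D] with p hp
    have hTp : ∀ i ∈ Finset.Ioc D (2 * D), (TT D J p).2 i ≠ 0 := by
      intro i hi
      show fl J p.2 i ≠ 0
      unfold fl
      split_ifs
      · exact neg_ne_zero.2 (hp i hi)
      · exact hp i hi
    apply propext
    constructor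
    · rintro ⟨h3, h4⟩
      have h3' : ff D σ p = J := h3
      refine ⟨ff_TT h1 hσ hp h3', ?_⟩
      have h5 : (fun j => XT D σ p j) = fun j => geo σ (TT D J p).1 j := by
        funext j
        rw [XT_eq h1 hσ p j, h3']
      have h4' : (fun j => XT D σ p j) ∈ F := h4
      rw [h5] at h4'
      exact h4'
    · rintro ⟨h3, h4⟩
      have h3' : ff D σ (TT D J p) = J := h3
      have h6 := ff_TT h1 hσ hTp h3'
      rw [TT_invol] at h6
      refine ⟨h6, ?_⟩
      have h5 : (fun j => XT D σ p j) = fun j => geo σ (TT D J p).1 j := by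
        funext j
        rw [XT_eq h1 hσ p j, h6]
      show (fun j => XT D σ p j) ∈ F
      rw [h5]
      exact h4
  show ((PP.prod PP) _).toReal = (PP _).toReal
  rw [hA, hA2]

end Pool.Agent.H225.GP174
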